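import Pool.Agent.R842.Cell.Main
import Pool.Agent.H228R4.Euclid

set_option autoImplicit false

namespace Pool.Agent.Results.MP_c35292_co.BothCells

open Pool.Agent.R842.Cell

/-- The 120 vertices of the 600-cell with circumradius `2`: all permutations and sign changes of
`(2,0,0,0)` and `(1,1,1,1)`, and all even permutations and sign changes of `(0, 1/φ, 1, φ)`, where
`φ` is the golden ratio. -/
noncomputable def cell600 : Set (EuclideanSpace ℝ (Fin 4)) :=
  SP ![2, 0, 0, 0] ∪ SP ![1, 1, 1, 1] ∪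
    ESP ![0, Real.goldenRatio⁻¹, 1, Real.goldenRatio]

/-- The 600 vertices of the 120-cell with circumradius `√8`: all permutations and sign changes of
`(0,0,2,2)`, `(1,1,1,√5)`, `(φ,φ,φ,φ⁻²)`, `(φ⁻¹,φ⁻¹,φ⁻¹,φ²)`, and all even permutations and sign
changes of `(0,φ⁻²,1,φ²)`, `(0,φ⁻¹,φ,√5)`, `(φ⁻¹,1,φ,2)`. -/
noncomputable def cell120 : Set (EuclideanSpace ℝ (Fin 4)) :=
  SP ![0, 0, 2, 2] ∪ SP ![1, 1, 1, √5] ∪
    SP ![Real.goldenRatio, Real.goldenRatio, Real.goldenRatio, (Real.goldenRatio ^ 2)⁻¹] ∪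
    SP ![Real.goldenRatio⁻¹, Real.goldenRatio⁻¹, Real.goldenRatio⁻¹, Real.goldenRatio ^ 2] ∪
    ESP ![0, (Real.goldenRatio ^ 2)⁻¹, 1, Real.goldenRatio ^ 2] ∪
    ESP ![0, Real.goldenRatio⁻¹, Real.goldenRatio, √5] ∪
    ESP ![Real.goldenRatio⁻¹, 1, Real.goldenRatio, 2]

/-- `Y` is a soluble set: it is finite and a soluble group of isometries, each mapping `Y` onto
itself, acts transitively on `Y`. -/
def IsSolubleSet {n : ℕ} (Y : Set (EuclideanSpace ℝ (Fin n))) : Prop :=
  Y.Finite ∧ ∃ H : Subgroup (EuclideanSpace ℝ (Fin n) ≃ᵢ EuclideanSpace ℝ (Fin n)),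
    Group.IsSolvable H ∧ (∀ h ∈ H, ⇑h '' Y = Y) ∧ ∀ y ∈ Y, ∀ z ∈ Y, ∃ h ∈ H, h y = z

/-- `X` is subsoluble: some soluble set contains the image of `X` under an isometric embedding. -/
def IsSubsoluble {d : ℕ} (X : Set (EuclideanSpace ℝ (Fin d))) : Prop :=
  ∃ (n : ℕ) (Y : Set (EuclideanSpace ℝ (Fin n)))
    (f : EuclideanSpace ℝ (Fin d) → EuclideanSpace ℝ (Fin n)),
    IsSolubleSet Y ∧ Isometry f ∧ f '' X ⊆ Y

theorem subsoluble_of_transitive {X : Set (EuclideanSpace ℝ (Fin 4))} (h1 : X.Finite)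
    (h2 : X.Nonempty) (h3 : ∀ x ∈ X, ∀ y ∈ X, Rel X x y) : IsSubsoluble X := by
  obtain ⟨m, Y, f, hY, hf, hfX, H, -, hH, hH1, hH2⟩ := Pool.Agent.H228R4.embed 4 X h1 h2 h3
  exact ⟨m, Y, f, ⟨hY, H, hH, hH1, hH2⟩, hf, hfX⟩

theorem rv_eq (a b c d : Z2) : rv ⟨a, b, c, d⟩ = ![re a, re b, re c, re d] := by
  funext i
  fin_cases i <;> rfl

theorem e0 : re (0, 0) = 0 := by simp [re]
theorem e1 : re (1, 0) = 1 := by simp [re]
theorem e2 : re (2, 0) = 2 := by simp [re]
theorem ep : re (0, 1) = Real.goldenRatio := by simp [re]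
theorem ei : re (-1, 1) = Real.goldenRatio⁻¹ := by
  have h := Real.goldenRatio_sq
  symm
  apply inv_eq_of_mul_eq_one_right
  simp only [re]
  push_cast
  linear_combination h
theorem es : re (1, 1) = Real.goldenRatio ^ 2 := by
  have h := Real.goldenRatio_sq
  simp only [re]
  push_cast
  linear_combination -h
theorem ej : re (2, -1) = (Real.goldenRatio ^ 2)⁻¹ := by
  have h := Real.goldenRatio_sq
  symm
  apply inv_eq_of_mul_eq_one_right
  simp only [re]
  push_cast
  linear_combination (-Real.goldenRatio + 1) * h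
theorem e5 : re (-1, 2) = √5 := by
  simp only [re, Real.goldenRatio]
  push_cast
  ring

theorem cell600_eq : cell600 = VB B600 := by
  have h1 : SP ![2, 0, 0, 0] = ESP ![2, 0, 0, 0] := SP_eq _ 1 2 (by decide) rfl
  have h2 : SP ![1, 1, 1, 1] = ESP ![1, 1, 1, 1] := SP_eq _ 1 2 (by decide) rfl
  rw [cell600, h1, h2]
  ext x
  simp only [VB, B600, List.mem_cons, List.not_mem_nil, or_false, exists_eq_or_imp,
    exists_eq_left, Set.mem_union, Set.mem_ofPred_eq, rv_eq, e0, e1, e2, ep, ei]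
  tauto

theorem cell120_eq : cell120 = VB B120 := by
  have h1 : SP ![0, 0, 2, 2] = ESP ![0, 0, 2, 2] := SP_eq _ 0 1 (by decide) rfl
  have h2 : SP ![1, 1, 1, √5] = ESP ![1, 1, 1, √5] := SP_eq _ 0 1 (by decide) rfl
  have h3 : SP ![Real.goldenRatio, Real.goldenRatio, Real.goldenRatio, (Real.goldenRatio ^ 2)⁻¹] =
    ESP ![Real.goldenRatio, Real.goldenRatio, Real.goldenRatio, (Real.goldenRatio ^ 2)⁻¹] :=
    SP_eq _ 0 1 (by decide) rfl
  have h4 : SP ![Real.goldenRatio⁻¹, Real.goldenRatio⁻¹, Real.goldenRatio⁻¹,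
      Real.goldenRatio ^ 2] = ESP ![Real.goldenRatio⁻¹, Real.goldenRatio⁻¹, Real.goldenRatio⁻¹,
      Real.goldenRatio ^ 2] := SP_eq _ 0 1 (by decide) rfl
  rw [cell120, h1, h2, h3, h4]
  ext x
  simp only [VB, B120, List.mem_cons, List.not_mem_nil, or_false, exists_eq_or_imp,
    exists_eq_left, Set.mem_union, Set.mem_ofPred_eq, rv_eq, e0, e1, e2, ep, ei, es, ej, e5]
  tauto

theorem nn : (0 : ℝ) ≤ Real.goldenRatio := Real.goldenRatio_pos.le

theorem nonneg600 : ∀ b ∈ B600, ∀ i, 0 ≤ rv b i := by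
  intro b hb i
  have h := nn
  simp only [B600, List.mem_cons, List.not_mem_nil, or_false] at hb
  rcases hb with rfl | rfl | rfl <;> rw [rv_eq] <;>
    simp only [e0, e1, e2, ep, ei] <;> fin_cases i <;>
    simp only [Fin.zero_eta, Fin.mk_one, Fin.reduceFinMk, Matrix.cons_val_zero,
      Matrix.cons_val_one, Matrix.cons_val] <;> positivity

theorem nonneg120 : ∀ b ∈ B120, ∀ i, 0 ≤ rv b i := by
  intro b hb i
  have h := nn
  simp only [B120, List.mem_cons, List.not_mem_nil, or_false] at hb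
  rcases hb with rfl | rfl | rfl | rfl | rfl | rfl | rfl <;> rw [rv_eq] <;>
    simp only [e0, e1, e2, ep, ei, es, ej, e5] <;> fin_cases i <;>
    simp only [Fin.zero_eta, Fin.mk_one, Fin.reduceFinMk, Matrix.cons_val_zero,
      Matrix.cons_val_one, Matrix.cons_val] <;> positivity

theorem norm600 : re (dot a600 a600) = 4 := by
  have : dot a600 a600 = (4, 0) := by decide
  rw [this]
  simp [re]

theorem norm120 : re (dot a120 a120) = 4 := by
  have : dot a120 a120 = (4, 0) := by decide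
  rw [this]
  simp [re]

/-- `SP v` (all permutations and sign changes of the vector `v`) and `ESP v` (all even permutations
and sign changes) are defined in `Pool/Agent/R842/Cell/Real.lean`. -/
theorem result : IsSubsoluble cell120 ∧ IsSubsoluble cell600 := by
  constructor
  · rw [cell120_eq]
    refine subsoluble_of_transitive (finite_VB _)
      ⟨iota ⟨(-1,1),(1,0),(0,1),(2,0)⟩, ⟨(-1,1),(1,0),(0,1),(2,0)⟩, by simp [B120],
        base_mem (nonneg120 _ (by simp [B120]))⟩ ?_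
    intro x hx y hy
    exact transitive nonneg120 norm120 inv120 (by simp [B120]) hub120 hx hy
  · rw [cell600_eq]
    refine subsoluble_of_transitive (finite_VB _)
      ⟨iota ⟨(0,0),(-1,1),(1,0),(0,1)⟩, ⟨(0,0),(-1,1),(1,0),(0,1)⟩, by simp [B600],
        base_mem (nonneg600 _ (by simp [B600]))⟩ ?_
    intro x hx y hy
    exact transitive nonneg600 norm600 inv600 (by simp [B600]) hub600 hx hy

end Pool.Agent.Results.MP_c35292_co.BothCells
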